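import Pool.Agent.H11.EL.Targets

/-!
# MP_0b603e_al: module AB of el_modules
-/

set_option autoImplicit false

open scoped commutatorElement

namespace Pool.Agent.H74.EL

open Pool.Agent.H11.EL

/-- in a commutative group the value of a word is multiplicative in the arguments -/
theorem lift_mul_comm {r : ℕ} {A : Type} [CommGroup A] (f g : Fin r → A)
    (w : FreeGroup (Fin r)) :
    FreeGroup.lift (fun i => f i * g i) w = FreeGroup.lift f w * FreeGroup.lift g w := by
  have h : FreeGroup.lift (fun i => f i * g i) =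
      (FreeGroup.lift f : FreeGroup (Fin r) →* A) * FreeGroup.lift g := by
    ext i
    simp
  rw [h]
  rfl

theorem lift_inv_comm {r : ℕ} {A : Type} [CommGroup A] (f : Fin r → A)
    (w : FreeGroup (Fin r)) :
    FreeGroup.lift (fun i => (f i)⁻¹) w = (FreeGroup.lift f w)⁻¹ := by
  have h : FreeGroup.lift (fun i => (f i)⁻¹) =
      (FreeGroup.lift f : FreeGroup (Fin r) →* A)⁻¹ := by
    ext i
    simp
  rw [h]
  rfl

theorem lift_one_comm {r : ℕ} {A : Type} [CommGroup A] (w : FreeGroup (Fin r)) :
    FreeGroup.lift (fun _ : Fin r => (1 : A)) w = 1 := by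
  have h : FreeGroup.lift (fun _ : Fin r => (1 : A)) = (1 : FreeGroup (Fin r) →* A) := by
    ext i
    simp
  rw [h]
  rfl

theorem of_lift {r : ℕ} {G : Type} [Group G] (f : Fin r → G) (w : FreeGroup (Fin r)) :
    Abelianization.of (FreeGroup.lift f w) =
      FreeGroup.lift (fun i => Abelianization.of (f i)) w := by
  have h : (Abelianization.of : G →* Abelianization G).comp (FreeGroup.lift f) =
      FreeGroup.lift (fun i => Abelianization.of (f i)) := by
    ext i
    simp
  rw [← h]
  rfl

theorem mem_iff {G : Type} [Group G] (a b : G) :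
    a⁻¹ * b ∈ commutator G ↔ (Abelianization.of a : Abelianization G) = Abelianization.of b :=
  QuotientGroup.eq.symm

theorem pf_ab : T_AB := by
  intro r w G _ g hg
  suffices h : ∃ f : Fin r → G,
      FreeGroup.lift (fun i => (Abelianization.of (f i) : Abelianization G)) w =
        Abelianization.of g by
    obtain ⟨f, hf⟩ := h
    exact ⟨f, (mem_iff _ _).2 ((of_lift f w).trans hf)⟩
  induction hg using Subgroup.closure_induction with
  | mem x hx =>
    obtain ⟨f, rfl⟩ := hx
    exact ⟨f, (of_lift f w).symm⟩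
  | one =>
    refine ⟨fun _ => 1, ?_⟩
    simp only [map_one]
    exact lift_one_comm w
  | mul x y _ _ hx hy =>
    obtain ⟨f, hf⟩ := hx
    obtain ⟨f', hf'⟩ := hy
    refine ⟨fun i => f i * f' i, ?_⟩
    simp only [map_mul]
    rw [lift_mul_comm, hf, hf']
  | inv x _ hx =>
    obtain ⟨f, hf⟩ := hx
    refine ⟨fun i => (f i)⁻¹, ?_⟩
    simp only [map_inv]
    rw [lift_inv_comm, hf]

end Pool.Agent.H74.EL
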