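import Pool.Agent.H11.EL.Targets

/-!
# MP_0b603e_al: module BC of el_modules
-/

set_option autoImplicit false

open scoped commutatorElement

namespace Pool.Agent.H74.EL

open Pool.Agent.H11.EL

theorem pf_bc : T_BC := by
  intro G _ M hM n a b x y x' y' hx hy hx' hy'
  induction n with
  | zero => rw [BB_zero]; exact Subgroup.one_mem _
  | succ n ih =>
    rw [BB_succ]
    refine Subgroup.mul_mem _ ih (Subgroup.mul_mem _ ?_ ?_)
    · unfold be
      refine Subgroup.mul_mem _ (Subgroup.mul_mem _ ?_ ?_) ?_
      · exact Subgroup.commutator_mem_commutator (hx' n) (hM.conj_mem _ (hy n) _)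
      · refine Subgroup.commutator_mem_commutator ?_ ?_
        · exact M.mul_mem (M.mul_mem (hx' n) (hM.conj_mem _ (hy' n) _))
            (hM.conj_mem _ (M.inv_mem (hx' n)) _)
        · exact hM.conj_mem _ (M.inv_mem (hx n)) _
      · exact Subgroup.commutator_mem_commutator (th_mem hM (hx' n) (hy' n))
          (hM.conj_mem _ (M.inv_mem (hy n)) _)
    · exact Subgroup.commutator_mem_commutator
        (Th_mem hM (fun i _ => hx' i) (fun i _ => hy' i))
        (hM.conj_mem _ (th_mem hM (hx n) (hy n)) _)

end Pool.Agent.H74.EL
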