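import Pool.Agent.H11.EL.Targets2

/-!
# MP_0b603e_al: module VC of el_modules
-/

set_option autoImplicit false

open scoped commutatorElement

namespace Pool.Agent.H74.EL.VC

open Pool.Agent.H11.EL

theorem cp_add {G : Type} [Group G] (m n : ℕ) (a b : ℕ → G) :
    cp (m + n) a b = cp m a b * cp n (fun i => a (m + i)) (fun i => b (m + i)) := by
  induction n with
  | zero => simp
  | succ n ih => rw [← add_assoc, cp_succ, ih, cp_succ, mul_assoc]

theorem cp_concat {G : Type} [Group G] (m n : ℕ) (a b a' b' : ℕ → G) :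
    ∃ c e : ℕ → G, cp (m + n) c e = cp m a b * cp n a' b' := by
  refine ⟨fun i => if i < m then a i else a' (i - m), fun i => if i < m then b i else b' (i - m),
    ?_⟩
  rw [cp_add]
  have h1 : cp m (fun i => if i < m then a i else a' (i - m))
      (fun i => if i < m then b i else b' (i - m)) = cp m a b :=
    cp_congr (fun i hi => if_pos hi) (fun i hi => if_pos hi)
  rw [h1]
  congr 2
  · funext i
    rw [if_neg (by omega), Nat.add_sub_cancel_left]
  · funext i
    rw [if_neg (by omega), Nat.add_sub_cancel_left]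

theorem exists_family {X : Type} (e : X) (s : Finset X) (d : ℕ) (hd : s.card ≤ d) :
    ∃ f : Fin d → X, (s : Set X) ⊆ Set.range f := by
  classical
  refine ⟨fun i => s.toList.getD i e, ?_⟩
  intro x hx
  have hx1 : x ∈ s.toList := by simpa using hx
  obtain ⟨i, hi, hxi⟩ := List.mem_iff_getElem.1 hx1
  have hi1 : i < s.card := by simpa using hi
  refine ⟨⟨i, by omega⟩, ?_⟩
  change s.toList.getD i e = x
  rw [List.getD_eq_getElem _ _ hi, hxi]

theorem pf_vc : T_CW → T_VD → T_VC := by
  classical
  intro hCW hVD d m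
  obtain ⟨n1, hn1⟩ := hVD d m
  refine ⟨m * d + 2 + n1, ?_⟩
  intro G _ _ S hSn hSs hSi s hs g hg
  haveI := hSn
  -- generators of `S`
  have hs' : Subgroup.closure ((Finset.univ.image s : Finset G) : Set G) = ⊤ := by
    rw [Finset.coe_image, Finset.coe_univ, Set.image_univ]
    exact hs
  obtain ⟨T, hT, hT1⟩ := Subgroup.exists_finset_card_le_mul S hs'
  have hTd : T.card ≤ m * d := by
    refine hT.trans (Nat.mul_le_mul hSi ?_)
    refine Finset.card_image_le.trans ?_
    simp
  obtain ⟨t, ht⟩ := exists_family (1 : S) T (m * d) hTd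
  have ht1 : Subgroup.closure (Set.range t) = ⊤ := by
    rw [eq_top_iff, ← hT1]
    exact Subgroup.closure_mono ht
  -- elements of the derived subgroup of `S`
  have hK : ∀ κ ∈ (⁅S, S⁆ : Subgroup G), ∃ c e : ℕ → G, cp (m * d + 2) c e = κ := by
    intro κ hκ
    have h1 : (⁅S, S⁆ : Subgroup G) = (commutator S).map S.subtype := by
      rw [commutator_def, Subgroup.map_commutator, ← MonoidHom.range_eq_map,
        Subgroup.range_subtype]
    rw [h1] at hκ
    obtain ⟨x, hx, rfl⟩ := hκ
    obtain ⟨a, b, hab, -⟩ := hCW (m * d) S hSs t ht1 x hx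
    refine ⟨fun i => a i, fun i => b i, ?_⟩
    have h2 := cp_map S.subtype (m * d + 2) a b
    rw [hab] at h2
    exact h2.symm
  -- the quotient
  set K : Subgroup G := ⁅S, S⁆ with hKdef
  have hKn : K.Normal := by rw [hKdef]; infer_instance
  haveI := hKn
  set π : G →* G ⧸ K := QuotientGroup.mk' K with hπ
  have hπs : Function.Surjective π := QuotientGroup.mk'_surjective K
  have hAn : (S.map π).Normal := hSn.map π hπs
  have hAc : ∀ x ∈ S.map π, ∀ y ∈ S.map π, x * y = y * x := by
    rintro _ ⟨x, hx, rfl⟩ _ ⟨y, hy, rfl⟩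
    have h1 : π ⁅x, y⁆ = 1 := by
      rw [← MonoidHom.mem_ker, hπ, QuotientGroup.ker_mk']
      exact Subgroup.commutator_mem_commutator hx hy
    rw [map_commutatorElement, commutatorElement_eq_one_iff_mul_comm] at h1
    exact h1
  have hAi : (S.map π).index ≤ m := by
    refine le_trans (Nat.le_of_dvd ?_ (Subgroup.index_map_dvd S hπs)) hSi
    exact Nat.pos_of_ne_zero Subgroup.index_ne_zero_of_finite
  have hgen : Subgroup.closure (Set.range fun i => π (s i)) = ⊤ := by
    have h1 : (Set.range fun i => π (s i)) = π '' Set.range s := by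
      rw [← Set.range_comp]; rfl
    rw [h1, ← MonoidHom.map_closure, hs, ← MonoidHom.range_eq_map]
    exact MonoidHom.range_eq_top.2 hπs
  have hπg : π g ∈ commutator (G ⧸ K) := by
    have h1 : π g ∈ (commutator G).map π := Subgroup.mem_map_of_mem π hg
    rw [commutator_def, Subgroup.map_commutator] at h1
    exact Subgroup.commutator_mono le_top le_top h1
  obtain ⟨a', b', hab'⟩ := hn1 (G ⧸ K) (S.map π) hAn hAc hAi (fun i => π (s i)) hgen _ hπg
  choose a ha using fun i => hπs (a' i)
  choose b hb using fun i => hπs (b' i)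
  have h3 : π (cp n1 a b) = π g := by
    rw [cp_map, ← hab']
    simp only [ha, hb]
  have h4 : g * (cp n1 a b)⁻¹ ∈ K := by
    rw [← QuotientGroup.ker_mk' K, MonoidHom.mem_ker, map_mul, map_inv]
    change π g * (π (cp n1 a b))⁻¹ = 1
    rw [h3, mul_inv_cancel]
  obtain ⟨c, e, hce⟩ := hK _ h4
  obtain ⟨c', e', hce'⟩ := cp_concat (m * d + 2) n1 c e a b
  refine ⟨c', e', ?_⟩
  rw [hce', hce, inv_mul_cancel_right]

end Pool.Agent.H74.EL.VC
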