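import Pool.Agent.H11.EL.Targets2

/-!
# MP_0b603e_al: module FV of el_modules
-/

set_option autoImplicit false

open scoped commutatorElement

namespace Pool.Agent.H74.EL

open Pool.Agent.H11.EL

theorem PW_cp {r : ℕ} {w : FreeGroup (Fin r)} {G : Type} [Group G] {M : ℕ}
    (h : ∀ x y : G, PW w M ⁅x, y⁆) (a b : ℕ → G) (n : ℕ) : PW w (n * M) (cp n a b) := by
  induction n with
  | zero => rw [cp_zero]; exact PW.one _
  | succ n ih =>
    rw [cp_succ, Nat.succ_mul]
    exact ih.mul (h _ _)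

theorem exists_family {X : Type} (e : X) (s : Finset X) (d : ℕ) (hd : s.card ≤ d) :
    ∃ f : Fin d → X, (s : Set X) ⊆ Set.range f := by
  classical
  refine ⟨fun i => s.toList.getD i e, ?_⟩
  intro x hx
  have hx1 : x ∈ s.toList := by simpa using hx
  obtain ⟨i, hi, hxi⟩ := List.mem_iff_getElem.1 hx1
  have hi1 : i < s.card := by simpa using hi
  refine ⟨⟨i, by omega⟩, ?_⟩
  change s.toList.getD i e = x
  rw [List.getD_eq_getElem _ _ hi, hxi]

theorem pf_fv : T_CM → T_VC → T_AB → T_FV := by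
  intro hCM hVC hAB r w hw ρ k d
  obtain ⟨M, hM⟩ := hCM r w hw ρ k
  obtain ⟨n, hn⟩ := hVC d ρ
  refine ⟨1 + n * M, ?_⟩
  intro G _ _ hC hS hs g hg
  obtain ⟨S, hSn, hSs, hSi⟩ := hS
  obtain ⟨s, hsd, hs1⟩ := hs
  obtain ⟨f, hf⟩ := hAB r w G g hg
  obtain ⟨t, ht⟩ := exists_family (1 : G) s d hsd
  have ht1 : Subgroup.closure (Set.range t) = ⊤ := by
    rw [eq_top_iff, ← hs1]
    exact Subgroup.closure_mono ht
  obtain ⟨a, b, hab⟩ := hn G S hSn hSs hSi t ht1 _ hf
  have h1 := PW_cp (hM G hC) a b n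
  rw [hab] at h1
  have h2 := (PW.val (w := w) f).mul h1
  rwa [mul_inv_cancel_left] at h2

end Pool.Agent.H74.EL
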